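import Pool.Agent.Lib_helper33.ASM.TDefs

/-!
# Existence of the coloured Poisson process, part 1: one cell

`N` is a Poisson number with mean `1`, `u 0, u 1, ...` are independent with law `ν`; the numbers of
the points `u 0, ..., u (N - 1)` in disjoint sets are independent Poisson variables.
-/

set_option autoImplicit false

open scoped BigOperators ENNReal NNReal
open MeasureTheory ProbabilityTheory Filter Topology

namespace Pool.Agent.Lib_helper87.ASM

open Pool.Agent.Lib_helper33.ASM

section vec

variable {Ω : Type*} [MeasurableSpace Ω] {P : Measure Ω} [IsProbabilityMeasure P] {m : ℕ}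

/-- law of the sum of two independent integer vectors -/
lemma sum_indep {X Y : Ω → Fin m → ℕ} (hX : Measurable X) (hY : Measurable Y) (h : IndepFun X Y P)
    (k : Fin m → ℕ) :
    P.real {ω | X ω + Y ω = k} =
      ∑ l ∈ Finset.Iic k, P.real {ω | X ω = l} * P.real {ω | Y ω = k - l} := by
  have e1 : {ω | X ω + Y ω = k} = ⋃ l ∈ Finset.Iic k, {ω | X ω = l} ∩ {ω | Y ω = k - l} := by
    ext ω
    simp only [Set.mem_ofPred_eq, Set.mem_iUnion, Finset.mem_Iic, Set.mem_inter_iff, exists_prop]
    constructor
    · intro h1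
      refine ⟨X ω, ?_, rfl, ?_⟩
      · rw [← h1]; exact le_self_add
      · rw [← h1]; simp
    · rintro ⟨l, hl, h1, h2⟩
      rw [h1, h2]
      funext i
      have h3 : l i ≤ k i := hl i
      simp only [Pi.add_apply, Pi.sub_apply]
      omega
  have hmeas : ∀ (Z : Ω → Fin m → ℕ) (_ : Measurable Z) (l : Fin m → ℕ),
      MeasurableSet {ω | Z ω = l} := fun Z hZ l => hZ (measurableSet_singleton l)
  rw [e1, measureReal_biUnion_finset]
  · refine Finset.sum_congr rfl fun l _ => ?_
    have := h.measure_inter_preimage_eq_mul {l} {k - l} (measurableSet_singleton _)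
      (measurableSet_singleton _)
    rw [measureReal_def, measureReal_def, measureReal_def, ← ENNReal.toReal_mul]
    congr 1
  · intro l _ l' _ hne
    rw [Function.onFun, Set.disjoint_left]
    rintro ω ⟨h1, -⟩ ⟨h2, -⟩
    exact hne (h1.symm.trans h2)
  · intro l _
    exact (hmeas X hX l).inter (hmeas Y hY _)

/-- sum of an integer vector and an independent vector with values `0` or unit vectors -/
lemma sum_indep_single {X Y : Ω → Fin m → ℕ} (hX : Measurable X) (hY : Measurable Y)
    (h : IndepFun X Y P) (hval : ∀ ω, Y ω = 0 ∨ ∃ i, Y ω = Pi.single i 1) (k : Fin m → ℕ) :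
    P.real {ω | X ω + Y ω = k} = P.real {ω | Y ω = 0} * P.real {ω | X ω = k} +
      ∑ i, P.real {ω | Y ω = Pi.single i 1} *
        (if k i = 0 then 0 else P.real {ω | X ω = k - Pi.single i 1}) := by
  have hmeas : ∀ (Z : Ω → Fin m → ℕ) (_ : Measurable Z) (l : Fin m → ℕ),
      MeasurableSet {ω | Z ω = l} := fun Z hZ l => hZ (measurableSet_singleton l)
  have hne : ∀ i : Fin m, (Pi.single i 1 : Fin m → ℕ) ≠ 0 := by
    intro i hi
    have := congrFun hi i
    simp at this
  have hinj : ∀ i j : Fin m, (Pi.single i 1 : Fin m → ℕ) = Pi.single j 1 → i = j := by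
    intro i j hij
    by_contra hne
    have := congrFun hij i
    rw [Pi.single_eq_same, Pi.single_eq_of_ne hne] at this
    exact one_ne_zero this
  have hle : ∀ i (l : Fin m → ℕ), l + Pi.single i 1 = k ↔ k i ≠ 0 ∧ l = k - Pi.single i 1 := by
    intro i l
    constructor
    · intro h1
      constructor
      · rw [← h1]; simp
      · rw [← h1]; simp
    · rintro ⟨h1, rfl⟩
      funext j
      by_cases hj : j = i
      · subst hj
        simp only [Pi.add_apply, Pi.sub_apply, Pi.single_eq_same]
        omega
      · simp [Pi.single_eq_of_ne hj]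
  have e1 : {ω | X ω + Y ω = k} = ({ω | Y ω = 0} ∩ {ω | X ω = k}) ∪
      ⋃ i ∈ (Finset.univ.filter fun i => k i ≠ 0), ({ω | Y ω = Pi.single i 1} ∩
        {ω | X ω = k - Pi.single i 1}) := by
    ext ω
    simp only [Set.mem_ofPred_eq, Set.mem_union, Set.mem_iUnion, Finset.mem_filter,
      Finset.mem_univ, true_and, Set.mem_inter_iff, exists_prop]
    rcases hval ω with h0 | ⟨i, hi⟩
    · rw [h0, add_zero]
      constructor
      · intro h1; exact Or.inl ⟨rfl, h1⟩
      · rintro (h1 | ⟨i, -, h1, -⟩)
        · exact h1.2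
        · exact absurd h1.symm (hne i)
    · rw [hi, hle]
      constructor
      · rintro ⟨h1, h2⟩; exact Or.inr ⟨i, h1, rfl, h2⟩
      · rintro (h1 | ⟨j, hj, h1, h2⟩)
        · exact absurd h1.1 (hne i)
        · have := hinj _ _ h1
          subst this
          exact ⟨hj, h2⟩
  have hmul : ∀ l l', P.real ({ω | Y ω = l'} ∩ {ω | X ω = l}) =
      P.real {ω | Y ω = l'} * P.real {ω | X ω = l} := by
    intro l l'
    have := h.symm.measure_inter_preimage_eq_mul {l'} {l} (measurableSet_singleton _)
      (measurableSet_singleton _)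
    rw [measureReal_def, measureReal_def, measureReal_def, ← ENNReal.toReal_mul]
    congr 1
  rw [e1, measureReal_union (h₂ := measure_ne_top _ _)]
  · rw [hmul, measureReal_biUnion_finset]
    · congr 1
      rw [Finset.sum_filter]
      refine Finset.sum_congr rfl fun i _ => ?_
      by_cases hi : k i = 0
      · simp [hi]
      · rw [if_pos hi, if_neg hi, hmul]
    · intro i _ j _ hij
      rw [Function.onFun, Set.disjoint_left]
      rintro ω ⟨h1, -⟩ ⟨h2, -⟩
      exact hij (hinj _ _ (h1.symm.trans h2))
    · intro i _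
      exact (hmeas Y hY _).inter (hmeas X hX _)
  · rw [Set.disjoint_left]
    rintro ω ⟨h1, -⟩ h2
    simp only [Set.mem_iUnion] at h2
    obtain ⟨i, -, h3, -⟩ := h2
    exact hne i (h3.symm.trans h1)
  · refine Finset.measurableSet_biUnion _ fun i _ => ?_
    exact (hmeas Y hY _).inter (hmeas X hX _)

end vec

end Pool.Agent.Lib_helper87.ASM
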