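import Pool.Agent.Lib_helper33.ASM.TDefs
import Pool.Agent.Lib_helper35.PPP.Basic

/-!
# Existence of the coloured Poisson process, part 2: the process in the unit cells
-/

set_option autoImplicit false

open scoped BigOperators ENNReal NNReal
open MeasureTheory ProbabilityTheory Filter Topology

namespace Pool.Agent.Lib_helper87.ASM

open Pool.Agent

/-- the sample space: the numbers of points in the cells, and the marks of the potential points -/
abbrev Om (d : ℕ) : Type := ((Fin d → ℤ) → ℕ) × (PPP.Idx d → EuclideanSpace ℝ (Fin d) × Bool)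

/-- the law of the numbers of points in the cells -/
noncomputable def lawN (d : ℕ) : Measure ((Fin d → ℤ) → ℕ) :=
  Measure.infinitePi fun _ => poissonMeasure 1

/-- the law of one mark -/
noncomputable def lawM1 (d : ℕ) (p : ℝ) : Measure (EuclideanSpace ℝ (Fin d) × Bool) :=
  ((volume : Measure (EuclideanSpace ℝ (Fin d))).restrict (PPP.cube d)).prod (PPP.bern p)

/-- the law of the marks -/
noncomputable def lawM (d : ℕ) (p : ℝ) :
    Measure (PPP.Idx d → EuclideanSpace ℝ (Fin d) × Bool) :=
  Measure.infinitePi fun _ => lawM1 d p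

instance (d : ℕ) : IsProbabilityMeasure (lawN d) := by unfold lawN; infer_instance

lemma lawM1_isProb (d : ℕ) {p : ℝ} (h0 : 0 ≤ p) (h1 : p ≤ 1) :
    IsProbabilityMeasure (lawM1 d p) := by
  have := PPP.bern_isProb h0 h1
  unfold lawM1
  infer_instance

lemma lawM_isProb (d : ℕ) {p : ℝ} (h0 : 0 ≤ p) (h1 : p ≤ 1) :
    IsProbabilityMeasure (lawM d p) := by
  have := lawM1_isProb d h0 h1
  unfold lawM
  infer_instance

/-- the law of the cell process -/
noncomputable def PP (d : ℕ) (p : ℝ) : Measure (Om d) := (lawN d).prod (lawM d p)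

lemma PP_isProb (d : ℕ) {p : ℝ} (h0 : 0 ≤ p) (h1 : p ≤ 1) : IsProbabilityMeasure (PP d p) := by
  have := lawM_isProb d h0 h1
  unfold PP
  infer_instance

theorem cell_process (d : ℕ) {p : ℝ} (h0 : 0 ≤ p) (h1 : p ≤ 1) :
    PPP.IsColouredPoisson (PP d p) d p (fun z ω => ω.1 z) (fun i ω => (ω.2 i).1)
      (fun i ω => (ω.2 i).2) := by
  have i1 := PPP.bern_isProb h0 h1
  have i2 := lawM1_isProb d h0 h1
  have i3 := lawM_isProb d h0 h1
  have i4 := PP_isProb d h0 h1
  have hfst : (PP d p).map Prod.fst = lawN d := by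
    unfold PP; rw [Measure.map_fst_prod]; simp
  have hsnd : (PP d p).map Prod.snd = lawM d p := by
    unfold PP; rw [Measure.map_snd_prod]; simp
  have hN : ∀ z, (PP d p).map (fun ω => ω.1 z) = poissonMeasure 1 := by
    intro z
    have : (fun ω : Om d => ω.1 z) = (fun f : (Fin d → ℤ) → ℕ => f z) ∘ Prod.fst := rfl
    rw [this, ← Measure.map_map (measurable_pi_apply z) measurable_fst, hfst]
    exact Measure.infinitePi_map_eval _ z
  have hM : ∀ i, (PP d p).map (fun ω => ω.2 i) = lawM1 d p := by
    intro i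
    have : (fun ω : Om d => ω.2 i) =
      (fun f : PPP.Idx d → EuclideanSpace ℝ (Fin d) × Bool => f i) ∘ Prod.snd := rfl
    rw [this, ← Measure.map_map (measurable_pi_apply i) measurable_snd, hsnd]
    exact Measure.infinitePi_map_eval _ i
  have mN : ∀ z, Measurable fun ω : Om d => ω.1 z := fun z => by fun_prop
  have mM : ∀ i, Measurable fun ω : Om d => ω.2 i := fun i => by fun_prop
  have hU : ∀ i, (PP d p).map (fun ω => (ω.2 i).1) =
      (volume : Measure (EuclideanSpace ℝ (Fin d))).restrict (PPP.cube d) := by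
    intro i
    have : (fun ω : Om d => (ω.2 i).1) = Prod.fst ∘ fun ω : Om d => ω.2 i := rfl
    rw [this, ← Measure.map_map measurable_fst (mM i), hM i]
    unfold lawM1
    rw [Measure.map_fst_prod, measure_univ, one_smul]
  have hR : ∀ i, (PP d p).map (fun ω => (ω.2 i).2) = PPP.bern p := by
    intro i
    have : (fun ω : Om d => (ω.2 i).2) = Prod.snd ∘ fun ω : Om d => ω.2 i := rfl
    rw [this, ← Measure.map_map measurable_snd (mM i), hM i]
    unfold lawM1
    rw [Measure.map_snd_prod, measure_univ, one_smul]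
  refine ⟨fun z => mN z, fun i => by fun_prop, fun i => by fun_prop, hN, hU, ?_, ?_, ?_, ?_, ?_⟩
  · intro i
    have e : {ω : Om d | (ω.2 i).2 = true} = (fun ω : Om d => (ω.2 i).2) ⁻¹' {true} := rfl
    rw [e, ← Measure.map_apply (by fun_prop) (measurableSet_singleton _), hR i]
    simp only [PPP.bern, Measure.coe_add, Measure.coe_smul, Pi.add_apply, Pi.smul_apply,
      smul_eq_mul]
    rw [Measure.dirac_apply' _ (measurableSet_singleton _),
      Measure.dirac_apply' _ (measurableSet_singleton _)]
    simp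
  · rw [iIndepFun_iff_map_fun_eq_infinitePi_map (fun z => mN z)]
    simp_rw [hN]
    exact hfst
  · intro i
    rw [indepFun_iff_map_prod_eq_prod_map_map (by fun_prop) (by fun_prop), hU i, hR i]
    exact hM i
  · rw [iIndepFun_iff_map_fun_eq_infinitePi_map (fun i => mM i)]
    have e : ∀ i, (PP d p).map (fun ω => ((ω.2 i).1, (ω.2 i).2)) = lawM1 d p := hM
    simp_rw [e]
    exact hsnd
  · rw [indepFun_iff_map_prod_eq_prod_map_map (by fun_prop) (by fun_prop)]
    have e1 : (PP d p).map (fun ω z => ω.1 z) = lawN d := hfst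
    have e2 : (PP d p).map (fun ω i => ((ω.2 i).1, (ω.2 i).2)) = lawM d p := hsnd
    rw [e1, e2]
    have e3 : (fun ω : Om d => ((fun z => ω.1 z), (fun i => ((ω.2 i).1, (ω.2 i).2)))) = id := rfl
    rw [e3, Measure.map_id]
    rfl

end Pool.Agent.Lib_helper87.ASM
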