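import Pool.Agent.Lib_helper87.ASM.Exist2

/-!
# Existence of the coloured Poisson process, part 3: enumeration of the points
-/

set_option autoImplicit false

open scoped BigOperators ENNReal NNReal
open MeasureTheory ProbabilityTheory Filter Topology

namespace Pool.Agent.Lib_helper87.ASM

open Pool.Agent Pool.Agent.Lib_helper33.ASM

section enum

variable {Ω : Type} [MeasurableSpace Ω] {P : Measure Ω} {d : ℕ} {p : ℝ}
  {N : (Fin d → ℤ) → Ω → ℕ} {U : PPP.Idx d → Ω → EuclideanSpace ℝ (Fin d)}
  {red : PPP.Idx d → Ω → Bool}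

lemma exists_disjoint_finset {α : Type*} [Infinite α] (F₀ : Finset α) (n : ℕ) :
    ∃ F : Finset α, Disjoint F F₀ ∧ F.card = n := by
  classical
  obtain ⟨G, hG1, hG2⟩ := Infinite.exists_superset_card_eq F₀ (F₀.card + n) (by omega)
  refine ⟨G \ F₀, Finset.sdiff_disjoint, ?_⟩
  rw [Finset.card_sdiff_of_subset hG1, hG2]
  omega

/-- almost surely infinitely many cells contain points -/
lemma ae_infinite (h : PPP.IsColouredPoisson P d p N U red) (hd : 0 < d) :
    ∀ᵐ ω ∂P, {z | N z ω ≠ 0}.Infinite := by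
  have : IsProbabilityMeasure P := h.isProb
  have hinf : Infinite (Fin d → ℤ) := by
    have : Nonempty (Fin d) := ⟨⟨0, hd⟩⟩
    infer_instance
  rw [ae_iff]
  have hsub : {ω | ¬ {z | N z ω ≠ 0}.Infinite} ⊆
      ⋃ F₀ : Finset (Fin d → ℤ), {ω | ∀ z, z ∉ F₀ → N z ω = 0} := by
    intro ω hω
    rw [Set.mem_ofPred_eq, Set.not_infinite] at hω
    refine Set.mem_iUnion.2 ⟨hω.toFinset, fun z hz => ?_⟩
    by_contra hne
    exact hz (hω.mem_toFinset.2 hne)
  refine measure_mono_null hsub (measure_iUnion_null fun F₀ => ?_)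
  have hle : ∀ n : ℕ, P {ω | ∀ z, z ∉ F₀ → N z ω = 0} ≤ ENNReal.ofReal (Real.exp (-1)) ^ n := by
    intro n
    obtain ⟨F, hF1, hF2⟩ := exists_disjoint_finset F₀ n
    calc P {ω | ∀ z, z ∉ F₀ → N z ω = 0} ≤ P (⋂ z ∈ F, (N z) ⁻¹' {0}) := by
          refine measure_mono fun ω hω => ?_
          simp only [Set.mem_iInter, Set.mem_preimage, Set.mem_singleton_iff]
          intro z hz
          exact hω z (fun h2 => (Finset.disjoint_left.1 hF1 hz) h2)
      _ = ∏ z ∈ F, P ((N z) ⁻¹' {0}) :=
          h.indep_count.measure_inter_preimage_eq_mul F (fun z _ => measurableSet_singleton _)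
      _ = ∏ _z ∈ F, ENNReal.ofReal (Real.exp (-1)) := by
          refine Finset.prod_congr rfl fun z _ => ?_
          rw [← Measure.map_apply (h.measurable_count z) (measurableSet_singleton _),
            h.law_count z, poissonMeasure_singleton]
          simp
      _ = ENNReal.ofReal (Real.exp (-1)) ^ n := by rw [Finset.prod_const, hF2]
  have hlim : Tendsto (fun n : ℕ => ENNReal.ofReal (Real.exp (-1)) ^ n) atTop (𝓝 0) := by
    refine ENNReal.tendsto_pow_atTop_nhds_zero_of_lt_one ?_
    rw [← ENNReal.ofReal_one]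
    exact (ENNReal.ofReal_lt_ofReal_iff one_pos).2 (by
      rw [Real.exp_lt_one_iff]; norm_num)
  exact le_antisymm (ge_of_tendsto' hlim hle) zero_le

/-- the position in the list `e` of the `n`-th present point -/
noncomputable def sel (N : (Fin d → ℤ) → Ω → ℕ) (e : ℕ ≃ PPP.Idx d) (n : ℕ) (ω : Ω) : ℕ :=
  Nat.nth (fun k => PPP.Present N (e k) ω) n

/-- the `n`-th present point -/
noncomputable def XX (N : (Fin d → ℤ) → Ω → ℕ) (U : PPP.Idx d → Ω → EuclideanSpace ℝ (Fin d))
    (e : ℕ ≃ PPP.Idx d) (n : ℕ) (ω : Ω) : EuclideanSpace ℝ (Fin d) :=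
  PPP.pos U (e (sel N e n ω)) ω

lemma measurable_sel (h : PPP.IsColouredPoisson P d p N U red) (e : ℕ ≃ PPP.Idx d) (n : ℕ) :
    Measurable (sel N e n) := by
  classical
  have hp : ∀ k, MeasurableSet {ω | PPP.Present N (e k) ω} := by
    intro k
    exact measurableSet_lt measurable_const (h.measurable_count _)
  have hc : ∀ k, Measurable fun ω => Nat.count (fun k => PPP.Present N (e k) ω) k := by
    intro k
    induction k with
    | zero => simp only [Nat.count_zero]; exact measurable_const
    | succ k ih =>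
      simp only [Nat.count_succ]
      exact ih.add (Measurable.ite (hp k) measurable_const measurable_const)
  have hm : ∀ m, m ≠ 0 → MeasurableSet (sel N e n ⁻¹' {m}) := by
    intro m hm
    have e1 : sel N e n ⁻¹' {m} = {ω | PPP.Present N (e m) ω} ∩
        {ω | Nat.count (fun k => PPP.Present N (e k) ω) m = n} := by
      ext ω
      simp only [Set.mem_preimage, Set.mem_singleton_iff, Set.mem_inter_iff, Set.mem_ofPred_eq,
        sel]
      constructor
      · intro h1
        have h2 : ∀ hf : (Set.ofPred fun k => PPP.Present N (e k) ω).Finite,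
            n < hf.toFinset.card := by
          intro hf
          by_contra hlt
          push Not at hlt
          have h0 := Nat.nth_of_card_le hf hlt
          exact hm (by rw [← h1]; exact h0)
        refine ⟨?_, ?_⟩
        · have := Nat.nth_mem n h2
          rwa [h1] at this
        · rw [← h1]
          exact Nat.count_nth h2
      · rintro ⟨h1, h2⟩
        rw [← h2]
        exact Nat.nth_count h1
    rw [e1]
    exact (hp m).inter (hc m (measurableSet_singleton n))
  refine measurable_to_countable' fun m => ?_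
  by_cases hm0 : m = 0
  · subst hm0
    have e2 : sel N e n ⁻¹' {0} = (⋃ m : ℕ, sel N e n ⁻¹' {m + 1})ᶜ := by
      ext ω
      simp only [Set.mem_preimage, Set.mem_singleton_iff, Set.mem_compl_iff, Set.mem_iUnion,
        not_exists]
      constructor
      · intro h1 m h2; omega
      · intro h1
        by_contra h2
        exact h1 (sel N e n ω - 1) (by omega)
    rw [e2]
    exact (MeasurableSet.iUnion fun m => hm (m + 1) (by omega)).compl
  · exact hm m hm0

lemma measurable_XX (h : PPP.IsColouredPoisson P d p N U red) (e : ℕ ≃ PPP.Idx d) (n : ℕ) :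
    Measurable (XX N U e n) := by
  intro B hB
  have e1 : XX N U e n ⁻¹' B = ⋃ k, (sel N e n ⁻¹' {k}) ∩ (PPP.pos U (e k)) ⁻¹' B := by
    ext ω
    simp only [Set.mem_preimage, Set.mem_iUnion, Set.mem_inter_iff, Set.mem_singleton_iff, XX]
    constructor
    · intro h1; exact ⟨_, rfl, h1⟩
    · rintro ⟨k, h1, h2⟩; rw [h1]; exact h2
  rw [e1]
  exact MeasurableSet.iUnion fun k =>
    (measurable_sel h e n (measurableSet_singleton k)).inter (PPP.measurable_pos h _ hB)

omit [MeasurableSpace Ω] in
lemma NN_XX (e : ℕ ≃ PPP.Idx d) {ω : Ω} (hω : {z | N z ω ≠ 0}.Infinite)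
    (A : Set (EuclideanSpace ℝ (Fin d))) :
    NN (fun n => XX N U e n ω) A = Set.encard {j | PPP.Present N j ω ∧ PPP.pos U j ω ∈ A} := by
  classical
  have hinf : (Set.ofPred fun k => PPP.Present N (e k) ω).Infinite := by
    have h1 : Set.MapsTo (fun z : Fin d → ℤ => e.symm (z, 0)) {z | N z ω ≠ 0}
        (Set.ofPred fun k => PPP.Present N (e k) ω) := by
      intro z hz
      change PPP.Present N (e (e.symm (z, 0))) ω
      rw [Equiv.apply_symm_apply]
      exact Nat.pos_of_ne_zero hz
    refine Set.infinite_of_injOn_mapsTo (Function.Injective.injOn ?_) h1 hω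
    intro z z' hzz
    have := e.symm.injective hzz
    exact (Prod.mk.injEq _ _ _ _ ▸ this).1
  have hinj : Function.Injective fun n => e (sel N e n ω) :=
    e.injective.comp (Nat.nth_injective hinf)
  have himg : (fun n => e (sel N e n ω)) '' {n | XX N U e n ω ∈ A} =
      {j | PPP.Present N j ω ∧ PPP.pos U j ω ∈ A} := by
    ext j
    constructor
    · rintro ⟨n, hn, rfl⟩
      refine ⟨?_, hn⟩
      exact Nat.nth_mem_of_infinite hinf n
    · rintro ⟨h1, h2⟩
      have h3 : e.symm j ∈ Set.range (Nat.nth fun k => PPP.Present N (e k) ω) := by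
        rw [Nat.range_nth_of_infinite hinf]
        change PPP.Present N (e (e.symm j)) ω
        rwa [Equiv.apply_symm_apply]
      obtain ⟨n, hn⟩ := h3
      have h4 : e (sel N e n ω) = j := by
        unfold sel
        rw [hn, Equiv.apply_symm_apply]
      refine ⟨n, ?_, h4⟩
      change PPP.pos U (e (sel N e n ω)) ω ∈ A
      rwa [h4]
  unfold NN
  rw [← himg, hinj.encard_image]

end enum

/-- the law of a sequence of colours -/
noncomputable def lawC (p : ℝ) : Measure (ℕ → Bool) := Measure.infinitePi fun _ => PPP.bern p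

lemma lawC_apply {p : ℝ} (h0 : 0 ≤ p) (h1 : p ≤ 1) (s : Finset ℕ) (b : ℕ → Bool) :
    lawC p {c | ∀ n ∈ s, c n = b n} = ∏ n ∈ s, ENNReal.ofReal (if b n then p else 1 - p) := by
  have i1 := PPP.bern_isProb h0 h1
  have e1 : {c : ℕ → Bool | ∀ n ∈ s, c n = b n} = Set.pi (s : Set ℕ) fun n => {b n} := by
    ext c; simp [Set.mem_pi]
  unfold lawC
  rw [e1, Measure.infinitePi_pi _ (fun n _ => measurableSet_singleton _)]
  refine Finset.prod_congr rfl fun n _ => ?_
  simp only [PPP.bern, Measure.coe_add, Measure.coe_smul, Pi.add_apply, Pi.smul_apply,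
    smul_eq_mul]
  rw [Measure.dirac_apply' _ (measurableSet_singleton _),
    Measure.dirac_apply' _ (measurableSet_singleton _)]
  cases b n <;> simp

/-- the law of the counts (proved by helper35) -/
def CountsLaw (d : ℕ) (p : ℝ) : Prop :=
  ∀ (Ω : Type) [MeasurableSpace Ω] (P : Measure Ω) (N : (Fin d → ℤ) → Ω → ℕ)
    (U : PPP.Idx d → Ω → EuclideanSpace ℝ (Fin d)) (red : PPP.Idx d → Ω → Bool),
    PPP.IsColouredPoisson P d p N U red →
    ∀ (m : ℕ) (A : Fin m → Set (EuclideanSpace ℝ (Fin d))) (k : Fin m → ℕ),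
      (∀ i, MeasurableSet (A i)) → (∀ i, volume (A i) ≠ ⊤) →
      (∀ i j, i ≠ j → Disjoint (A i) (A j)) →
      P {ω | ∀ i, Set.encard {j : PPP.Idx d | PPP.Present N j ω ∧ PPP.pos U j ω ∈ A i} = k i} =
        ENNReal.ofReal (∏ i, poi (volume (A i)).toReal (k i))

theorem exists_colouredPoisson_of (d : ℕ) (hd : 0 < d) {p : ℝ} (h0 : 0 ≤ p) (h1 : p ≤ 1)
    (hlaw : CountsLaw d p) :
    ∃ (Ω : Type) (_ : MeasurableSpace Ω) (P : Measure Ω) (_ : IsProbabilityMeasure P)
      (X : ℕ → Ω → Sp d) (c : ℕ → Ω → Bool), IsColouredPoisson P p X c := by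
  classical
  have i1 := PPP.bern_isProb h0 h1
  have i2 := PP_isProb d h0 h1
  have i3 : IsProbabilityMeasure (lawC p) := by unfold lawC; infer_instance
  have hcell := cell_process d h0 h1
  set N : (Fin d → ℤ) → Om d → ℕ := fun z ω => ω.1 z with hN
  set U : PPP.Idx d → Om d → EuclideanSpace ℝ (Fin d) := fun i ω => (ω.2 i).1 with hU
  have hinf : Infinite (Fin d → ℤ) := by
    have : Nonempty (Fin d) := ⟨⟨0, hd⟩⟩
    infer_instance
  obtain ⟨e⟩ : Nonempty (ℕ ≃ PPP.Idx d) := nonempty_equiv_of_countable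
  refine ⟨Om d × (ℕ → Bool), inferInstance, (PP d p).prod (lawC p), inferInstance,
    fun n ω => XX N U e n ω.1, fun n ω => ω.2 n, ?_, ?_, ?_, ?_⟩
  · intro n
    exact (measurable_XX hcell e n).comp measurable_fst
  · intro n
    exact (measurable_pi_apply n).comp measurable_snd
  · intro m A k hA hfin hdis
    have e1 : {ω : Om d × (ℕ → Bool) | ∀ i, NN (fun n => XX N U e n ω.1) (A i) = k i} =
        {ω : Om d | ∀ i, NN (fun n => XX N U e n ω) (A i) = k i} ×ˢ Set.univ := by
      ext ω; simp
    rw [e1, Measure.prod_prod, measure_univ, mul_one,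
      ← hlaw (Om d) (PP d p) N U _ hcell m A k hA hfin hdis]
    refine measure_congr ?_
    filter_upwards [ae_infinite hcell hd] with ω hω
    refine propext ?_
    change (∀ i, NN (fun n => XX N U e n ω) (A i) = k i) ↔
      ∀ i, Set.encard {j : PPP.Idx d | PPP.Present N j ω ∧ PPP.pos U j ω ∈ A i} = k i
    simp_rw [NN_XX e hω]
  · intro s b B hB
    have e1 : {ω : Om d × (ℕ → Bool) | (fun n => XX N U e n ω.1) ∈ B ∧ ∀ n ∈ s, ω.2 n = b n} =
        {ω : Om d | (fun n => XX N U e n ω) ∈ B} ×ˢ {c : ℕ → Bool | ∀ n ∈ s, c n = b n} := by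
      ext ω; simp [Set.mem_prod]
    have e2 : {ω : Om d × (ℕ → Bool) | (fun n => XX N U e n ω.1) ∈ B} =
        {ω : Om d | (fun n => XX N U e n ω) ∈ B} ×ˢ (Set.univ : Set (ℕ → Bool)) := by
      ext ω; simp [Set.mem_prod]
    rw [e1, e2, Measure.prod_prod, Measure.prod_prod, measure_univ, mul_one, lawC_apply h0 h1]

end Pool.Agent.Lib_helper87.ASM
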