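import Pool.Agent.Lib_helper87.ASM.Exist3
import Pool.Agent.Lib_helper35.PPP.Counts

/-!
# Existence of the coloured Poisson process, conclusion
-/

set_option autoImplicit false

open MeasureTheory

namespace Pool.Agent.Lib_helper87.ASM

open Pool.Agent Pool.Agent.Lib_helper33.ASM

/-- There is an enumerated coloured Poisson process. -/
theorem exists_colouredPoisson (d : ℕ) (hd : 0 < d) {p : ℝ} (h0 : 0 ≤ p) (h1 : p ≤ 1) :
    ∃ (Ω : Type) (_ : MeasurableSpace Ω) (P : Measure Ω) (_ : IsProbabilityMeasure P)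
      (X : ℕ → Ω → Sp d) (c : ℕ → Ω → Bool), IsColouredPoisson P p X c :=
  exists_colouredPoisson_of d hd h0 h1 fun _ _ _ _ _ _ h m A k hA hv hdis =>
    PPP.counts_law h h0 h1 m A k hA hv hdis

end Pool.Agent.Lib_helper87.ASM
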