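import Pool.Agent.Lib_helper77.ASM.T5
import Pool.Agent.Lib_helper33.ASM.Stmts

/-!
# Final assembly
-/

set_option autoImplicit false

open scoped BigOperators ENNReal
open MeasureTheory Filter Topology

namespace Pool.Agent.Lib_helper87.ASM

open Pool.Agent.Lib_helper33.ASM

variable {d : ℕ} {p : ℝ} {Ω : Type} [MeasurableSpace Ω] {P : Measure Ω} [IsProbabilityMeasure P]
  {X : ℕ → Ω → Sp d} {c : ℕ → Ω → Bool}

/-- not all points are matched -/
theorem not_all_matched (h6 : StmtT6) (hFIN : StmtFIN d p) (hd : 0 < d) (hp : 0 < p) (hp1 : p < 1)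
    (hX : IsColouredPoisson P p X c) :
    ¬ ∀ᵐ ω ∂P, ∀ m, IsStableMatching (fun n => X n ω) (fun n => c n ω) m → ∀ i, m i ≠ i := by
  intro hall
  obtain ⟨I, n₀, a₀, ha₀, h⟩ := hFIN
  obtain ⟨𝓜, h𝓜⟩ := h6 d p hd hp hp1 Ω P X c hX hall I n₀ a₀ ha₀
  exact h 𝓜 h𝓜

/-- points of the cube `j` and of the colour `b` unmatched at time `t` -/
def Sun (x : ℕ → Sp d) (c : ℕ → Bool) (b : Bool) (j : Fin d → ℤ) (t : ℝ) : Set ℕ :=
  {s | cb (x s) = j ∧ full c s = some b ∧ Un x (full c) t s}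

lemma Sun_finite {x : ℕ → Sp d} (hx : Nice x) (c : ℕ → Bool) (b : Bool) (j : Fin d → ℤ) (t : ℝ) :
    (Sun x c b j t).Finite :=
  (nice_finite hx j).subset fun _ hs => hs.1

lemma uc_eq (x : ℕ → Sp d) (c : ℕ → Bool) (b : Bool) (j : Fin d → ℤ) (t : ℝ) :
    uc x (full c) b j t = (Sun x c b j t).ncard := rfl

lemma Bf_mono' {ι : Type*} {x : ι → Sp d} {ω : Cfg ι} {r s : ℝ} (hrs : r ≤ s) {i : ι}
    (h : Bf x ω r i) : Bf x ω s i := by
  obtain ⟨j, h1, h2⟩ := h
  exact ⟨j, h1, h2.trans_le hrs⟩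

/-- if there are unmatched points in a cube at all times, one of them is never matched -/
lemma exists_unmatched {x : ℕ → Sp d} (hx : Nice x) (c : ℕ → Bool) (b : Bool) (j : Fin d → ℤ)
    (h : ∀ t : ℕ, 1 ≤ uc x (full c) b j t) : ∃ i, ∀ k, ¬ mt x (full c) i k := by
  classical
  have hne : ∀ t : ℕ, (Sun x c b j t).Nonempty := by
    intro t
    have h1 := h t
    rw [uc_eq] at h1
    have h2 : 0 < (Sun x c b j t).ncard := by exact_mod_cast h1
    exact Set.nonempty_of_ncard_ne_zero h2.ne'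
  choose s hs using hne
  have hmem : ∀ t, s t ∈ {i | cb (x i) = j} := fun t => (hs t).1
  obtain ⟨i, -, hi⟩ : ∃ i ∈ {i | cb (x i) = j}, (s ⁻¹' {i}).Infinite := by
    by_contra hcon
    push Not at hcon
    have hfin : (⋃ i ∈ {i | cb (x i) = j}, s ⁻¹' {i}).Finite :=
      (nice_finite hx j).biUnion fun i hi => hcon i hi
    have huniv : (⋃ i ∈ {i | cb (x i) = j}, s ⁻¹' {i}) = Set.univ := by
      refine Set.eq_univ_of_forall fun t => ?_
      exact Set.mem_biUnion (hmem t) rfl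
    rw [huniv] at hfin
    exact Set.infinite_univ hfin
  refine ⟨i, fun k hk => ?_⟩
  obtain ⟨T, hT⟩ := exists_nat_gt (dist (x i) (x k))
  obtain ⟨t, ht, htT⟩ := hi.exists_gt T
  have h1 : s t = i := ht
  have h2 := (hs t).2.2.2
  rw [h1] at h2
  exact h2 ⟨k, hk, hT.trans (by exact_mod_cast htT)⟩

lemma uc_ge_one {x : ℕ → Sp d} (hx : Nice x) (c : ℕ → Bool) {i : ℕ}
    (h : ∀ k, ¬ mt x (full c) i k) (t : ℝ) : 1 ≤ uc x (full c) (c i) (cb (x i)) t := by
  rw [uc_eq]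
  have hmem : i ∈ Sun x c (c i) (cb (x i)) t := by
    refine ⟨rfl, rfl, by simp [full], ?_⟩
    rintro ⟨k, hk, -⟩
    exact h k hk
  have h1 : (Sun x c (c i) (cb (x i)) t).ncard ≠ 0 := by
    rw [Ne, Set.ncard_eq_zero (Sun_finite hx c _ _ t)]
    exact Set.nonempty_iff_ne_empty.1 ⟨i, hmem⟩
  exact_mod_cast Nat.one_le_iff_ne_zero.2 h1

/-- the measurable event on which some point is unmatched -/
theorem exists_event (h1 : StmtT1) (h2 : StmtT2) (h3 : StmtT3) (h4a : StmtT4a) (h4b : StmtT4b)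
    (hd : 0 < d) (hp : 0 < p) (hp1 : p < 1) (hX : IsColouredPoisson P p X c)
    (hnot : ¬ ∀ᵐ ω ∂P, ∀ m, IsStableMatching (fun n => X n ω) (fun n => c n ω) m →
      ∀ i, m i ≠ i) :
    ∃ V : Set Ω, MeasurableSet V ∧ 0 < P V ∧ ∀ ω ∈ V, ∃ m,
      IsStableMatching (fun n => X n ω) (fun n => c n ω) m ∧
      (∀ m', IsStableMatching (fun n => X n ω) (fun n => c n ω) m' → m' = m) ∧
      ∃ i, m i = i := by
  have hnice := h2 d p hp hp1 Ω P X c hd hX
  obtain ⟨y0, hy0⟩ := exists_pos h4b hd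
  have hint : ∀ b j (t : ℕ), Integrable
      (fun ω => uc (fun i => X i ω) (full (fun i => c i ω)) b j t) P := by
    intro b j t
    obtain ⟨n0, -, h, -⟩ := main_uc h1 h2 h3 h4a h4b hd hp hp1 hX y0 hy0 b 0 j t
    rwa [zero_add] at h
  set V₀ : Set Ω := ⋃ b : Bool, ⋃ j : Fin d → ℤ, ⋂ t : ℕ,
    {ω | 1 ≤ uc (fun i => X i ω) (full (fun i => c i ω)) b j t} with hV₀
  have hV₀m : NullMeasurableSet V₀ P := by
    refine NullMeasurableSet.iUnion fun b => NullMeasurableSet.iUnion fun j =>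
      NullMeasurableSet.iInter fun t => ?_
    exact nullMeasurableSet_le aemeasurable_const (hint b j t).aestronglyMeasurable.aemeasurable
  have hV₀pos : P V₀ ≠ 0 := by
    intro h0
    apply hnot
    have h5 : ∀ᵐ ω ∂P, ω ∉ V₀ := measure_eq_zero_iff_ae_notMem.1 h0
    filter_upwards [hnice, h5] with ω hω h6 m hm i hi
    apply h6
    have hun : ∀ k, ¬ mt (fun n => X n ω) (full fun n => c n ω) i k := by
      intro k hk
      have hne : i ≠ k := by
        have hker := ((h3 d _ hω).1 (full fun n => c n ω)).2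
        exact ((hker i k).1 hk).1.1
      have := (((h3 d _ hω).2.2 (fun n => c n ω)).2 m hm i k hne).2 hk
      exact hne (hi.symm.trans this)
    refine Set.mem_iUnion.2 ⟨c i ω, Set.mem_iUnion.2 ⟨cb (X i ω), Set.mem_iInter.2 fun t => ?_⟩⟩
    exact uc_ge_one hω (fun n => c n ω) hun t
  obtain ⟨V₁, hV₁sub, hV₁m, hV₁ae⟩ := hV₀m.exists_measurable_subset_ae_eq
  obtain ⟨T, hTsub, hTm, hT0⟩ := exists_measurable_superset_of_null (ae_iff.1 hnice)
  refine ⟨V₁ \ T, hV₁m.diff hTm, ?_, ?_⟩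
  · rw [measure_sdiff_null hT0, measure_congr hV₁ae]
    exact pos_iff_ne_zero.2 hV₀pos
  · intro ω hω
    have hn : Nice fun n => X n ω := by
      by_contra hcon
      exact hω.2 (hTsub hcon)
    have hV : ω ∈ V₀ := hV₁sub hω.1
    obtain ⟨b, hb⟩ := Set.mem_iUnion.1 hV
    obtain ⟨j, hj⟩ := Set.mem_iUnion.1 hb
    have hj' := Set.mem_iInter.1 hj
    obtain ⟨i, hi⟩ := exists_unmatched hn (fun n => c n ω) b j hj'
    obtain ⟨⟨m, hm, huniq⟩, h5⟩ := (h3 d _ hn).2.2 (fun n => c n ω)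
    refine ⟨m, hm, huniq, i, ?_⟩
    by_contra hne
    exact hi (m i) ((h5 m hm i (m i) (Ne.symm hne)).1 rfl)

end Pool.Agent.Lib_helper87.ASM
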