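import Pool.Agent.Lib_helper33.ASM.Stmts

/-!
# Module UB: upper bounds for the densities and second moments of the free volume
-/

set_option autoImplicit false

open scoped BigOperators

namespace Pool.Agent.Lib_helper87.ASM

open Pool.Agent.Lib_helper33.ASM

/-! ## One site -/

section site

variable {ι : Type*} [Fintype ι] [DecidableEq ι] {E : Type*} [MetricSpace E] {a p : ℝ}

/-- inserting a blue point at a free site `z` near the free site `o` -/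
lemma insert_near (h : Par a p) {x : ι → E} (hx : Gen x) (t : ℝ) (o : ι) :
    a * (1 - p) * ex a p (fun ω => cnt fun z =>
      FR x ω t o ∧ z ≠ o ∧ FB x ω t z ∧ dist (x o) (x z) < t) ≤
      pr a p (fun ω => FB x ω t o) - pr a p (fun ω => FR x ω t o) := by
  have key := insert_ineq (a := a) (p := p) h false
    (fun ω z => FR x ω t o ∧ z ≠ o ∧ FB x ω t z ∧ dist (x o) (x z) < t)
    (fun ω => FB x ω t o ∧ ¬ FR x ω t o) (fun ω z hz => hz.2.2.1.1)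
    (fun ω z hz => ?_) ?_
  · have e1 : pr a p (fun ω => FB x ω t o ∧ ¬ FR x ω t o) =
        pr a p (fun ω => FB x ω t o) - pr a p (fun ω => FR x ω t o) := by
      unfold pr
      rw [← ex_sub]
      congr 1
      funext ω
      by_cases h1 : FR x ω t o
      · rw [ind_false (fun h2 => h2.2 h1), ind_true h1.fb, ind_true h1]; ring
      · by_cases h2 : FB x ω t o
        · rw [ind_true ⟨h2, h1⟩, ind_true h2, ind_false h1]; ring
        · rw [ind_false (fun h3 => h2 h3.1), ind_false h2, ind_false h1]; ring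
    rw [← e1]
    simpa using key
  · have := ub_step hx hz.1 hz.2.2.1 hz.2.1 hz.2.2.2
    exact ⟨this.1, this.2.1⟩
  · intro ω z ω' z' hz hz' he
    by_contra hne
    have h1 : ins ω z false z' = some false := by
      rw [he]; simp [ins]
    have h2 : ω z' = some false := by
      rw [← h1]; simp [ins, Ne.symm hne]
    obtain ⟨k, hk, hk2⟩ := (ub_step hx hz.1 hz.2.2.1 hz.2.1 hz.2.2.2).2.2 z' (by rw [h2]; simp)
      hz'.2.2.2
    rw [he] at hk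
    have h3 := (un_ins_blue hx (t := t) hz'.2.2.1.1).2 hz'.2.2.1
    exact h3.2 ⟨k, hk, hk2.trans_lt hz'.2.2.2⟩

end site

/-! ## Second moment in a small ball -/

section ball

variable {d : ℕ}

lemma ind_mul_ind_le {A B C : Prop} (h : A → B → C) : ind A * ind B ≤ ind C := by
  rw [← ind_and]
  exact ind_mono fun h1 => h h1.1 h1.2

lemma cnt_sq_le {ι : Type*} [Fintype ι] (A : ι → Prop) (B : ι → ι → Prop)
    (hAB : ∀ s z, A s → A z → z ≠ s → B s z) :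
    (cnt A) ^ 2 ≤ cnt A + ∑ s, ind (A s) * cnt (B s) := by
  classical
  have e0 : (cnt A) ^ 2 = ∑ s, ind (A s) * ∑ z, ind (A z) := by
    rw [sq, cnt_eq_sum A, Finset.sum_mul]
  rw [e0, cnt_eq_sum A, ← Finset.sum_add_distrib]
  refine Finset.sum_le_sum fun s _ => ?_
  have h1 : ∑ z, ind (A z) ≤ 1 + ∑ z, ind (A z ∧ z ≠ s) := by
    rw [← Finset.add_sum_erase _ _ (Finset.mem_univ s)]
    refine add_le_add (ind_le_one _) ?_
    calc ∑ z ∈ Finset.univ.erase s, ind (A z)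
        ≤ ∑ z ∈ Finset.univ.erase s, ind (A z ∧ z ≠ s) :=
          Finset.sum_le_sum fun z hz => ind_mono fun h => ⟨h, (Finset.mem_erase.1 hz).1⟩
      _ ≤ ∑ z, ind (A z ∧ z ≠ s) :=
          Finset.sum_le_sum_of_subset_of_nonneg (Finset.erase_subset _ _)
            fun _ _ _ => ind_nonneg _
  calc ind (A s) * ∑ z, ind (A z) ≤ ind (A s) * (1 + ∑ z, ind (A z ∧ z ≠ s)) :=
        mul_le_mul_of_nonneg_left h1 (ind_nonneg _)
    _ = ind (A s) + ∑ z, ind (A s) * ind (A z ∧ z ≠ s) := by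
        rw [mul_add, mul_one, Finset.mul_sum]
    _ ≤ ind (A s) + ∑ z, ind (A s) * ind (B s z) := by
        refine add_le_add le_rfl (Finset.sum_le_sum fun z _ => ?_)
        by_cases hs : A s
        · rw [ind_true hs, one_mul, one_mul]
          exact ind_mono fun h => hAB s z hs h.1 h.2
        · rw [ind_false hs]; simp
    _ = ind (A s) + ind (A s) * cnt (B s) := by
        rw [cnt_eq_sum (B s), Finset.mul_sum]

lemma ex_bs (p : ℝ) (𝓜 : Model d) (c : Sp d) (R t : ℝ) :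
    ex 𝓜.a p (fun ω => 𝓜.a * cnt fun s => dist (𝓜.x s) c ≤ R ∧ FR 𝓜.x ω t s) =
      bs 𝓜 c R (vv p 𝓜 t) := by
  rw [ex_mul_left, ex_cnt]
  unfold bs vv
  congr 1
  refine Finset.sum_congr rfl fun s _ => ?_
  by_cases h : dist (𝓜.x s) c ≤ R
  · simp [h]
  · simp only [h, false_and, if_false]
    unfold pr
    simp [ind, ex]

/-- the second moment of the free volume in a ball of radius less than `t / 2` -/
lemma second_moment {p : ℝ} (𝓜 : Model d) (h : Par 𝓜.a p) (c : Sp d) {R t : ℝ} (hR : 2 * R < t) :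
    ex 𝓜.a p (fun ω => (𝓜.a * cnt fun s => dist (𝓜.x s) c ≤ R ∧ FR 𝓜.x ω t s) ^ 2) ≤
      bs 𝓜 c R (vv p 𝓜 t) + bs 𝓜 c R (uu p 𝓜 t) / (1 - p) := by
  classical
  have hq : 0 < 1 - p := by linarith [h.p_lt]
  have ha := h.a_pos
  have ha1 : 𝓜.a ≤ 1 := by linarith [h.a_half]
  set B : Cfg 𝓜.ι → 𝓜.ι → 𝓜.ι → Prop := fun ω s z =>
    FR 𝓜.x ω t s ∧ z ≠ s ∧ FB 𝓜.x ω t z ∧ dist (𝓜.x s) (𝓜.x z) < t with hB
  have step1 : ∀ ω, (𝓜.a * cnt fun s => dist (𝓜.x s) c ≤ R ∧ FR 𝓜.x ω t s) ^ 2 ≤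
      (𝓜.a * cnt fun s => dist (𝓜.x s) c ≤ R ∧ FR 𝓜.x ω t s) +
        𝓜.a * ∑ s, (if dist (𝓜.x s) c ≤ R then 𝓜.a * cnt (B ω s) else 0) := by
    intro ω
    have h1 := cnt_sq_le (fun s => dist (𝓜.x s) c ≤ R ∧ FR 𝓜.x ω t s) (B ω) (by
      intro s z hs hz hne
      refine ⟨hs.2, hne, hz.2.fb, ?_⟩
      calc dist (𝓜.x s) (𝓜.x z) ≤ dist (𝓜.x s) c + dist (𝓜.x z) c := dist_triangle_right _ _ _
        _ ≤ R + R := add_le_add hs.1 hz.1
        _ < t := by linarith)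
    have h2 : ∑ s, ind (dist (𝓜.x s) c ≤ R ∧ FR 𝓜.x ω t s) * cnt (B ω s) ≤
        ∑ s, (if dist (𝓜.x s) c ≤ R then cnt (B ω s) else 0) := by
      refine Finset.sum_le_sum fun s _ => ?_
      by_cases hs : dist (𝓜.x s) c ≤ R
      · rw [if_pos hs]
        calc _ ≤ 1 * cnt (B ω s) := mul_le_mul_of_nonneg_right (ind_le_one _) (cnt_nonneg _)
          _ = _ := one_mul _
      · rw [if_neg hs, ind_false (fun h => hs h.1), zero_mul]
    have h3 : (0 : ℝ) ≤ cnt fun s => dist (𝓜.x s) c ≤ R ∧ FR 𝓜.x ω t s := cnt_nonneg _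
    have h4 : 𝓜.a * ∑ s, (if dist (𝓜.x s) c ≤ R then 𝓜.a * cnt (B ω s) else 0) =
        𝓜.a ^ 2 * ∑ s, (if dist (𝓜.x s) c ≤ R then cnt (B ω s) else 0) := by
      rw [sq, mul_assoc, Finset.mul_sum (s := Finset.univ) (a := 𝓜.a)
        (f := fun s => if dist (𝓜.x s) c ≤ R then cnt (B ω s) else 0)]
      congr 1
      refine Finset.sum_congr rfl fun s _ => ?_
      split_ifs <;> simp
    rw [h4, mul_pow]
    have h5 : 𝓜.a ^ 2 * (cnt fun s => dist (𝓜.x s) c ≤ R ∧ FR 𝓜.x ω t s) ≤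
        𝓜.a * cnt fun s => dist (𝓜.x s) c ≤ R ∧ FR 𝓜.x ω t s := by
      refine mul_le_mul_of_nonneg_right ?_ h3
      nlinarith
    have h6 : 𝓜.a ^ 2 * (cnt fun s => dist (𝓜.x s) c ≤ R ∧ FR 𝓜.x ω t s) ^ 2 ≤
        𝓜.a ^ 2 * ((cnt fun s => dist (𝓜.x s) c ≤ R ∧ FR 𝓜.x ω t s) +
          ∑ s, (if dist (𝓜.x s) c ≤ R then cnt (B ω s) else 0)) :=
      mul_le_mul_of_nonneg_left (by linarith) (by positivity)
    rw [mul_add] at h6
    linarith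
  refine (ex_mono h step1).trans ?_
  rw [ex_add, ex_bs]
  refine add_le_add le_rfl ?_
  rw [ex_mul_left, ex_sum, bs, mul_div_assoc, Finset.sum_div]
  refine mul_le_mul_of_nonneg_left (Finset.sum_le_sum fun s _ => ?_) ha.le
  by_cases hs : dist (𝓜.x s) c ≤ R
  · simp only [hs, if_true]
    rw [ex_mul_left, le_div_iff₀ hq]
    have := insert_near h 𝓜.gen t s
    have h7 : 0 ≤ pr 𝓜.a p (fun ω => FR 𝓜.x ω t s) := pr_nonneg h _
    calc 𝓜.a * ex 𝓜.a p (fun ω => cnt (B ω s)) * (1 - p)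
        = 𝓜.a * (1 - p) * ex 𝓜.a p (fun ω => cnt (B ω s)) := by ring
      _ ≤ uu p 𝓜 t s := by
          unfold uu
          linarith
  · simp only [hs, if_false]
    rw [ex_const]
    simp

end ball

/-! ## Densities -/

section dens

variable {d : ℕ}

lemma vv_nonneg {p : ℝ} {𝓜 : Model d} (h : Par 𝓜.a p) (t : ℝ) (s : 𝓜.ι) : 0 ≤ vv p 𝓜 t s :=
  pr_nonneg h _

lemma uu_nonneg {p : ℝ} {𝓜 : Model d} (h : Par 𝓜.a p) (t : ℝ) (s : 𝓜.ι) : 0 ≤ uu p 𝓜 t s :=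
  pr_nonneg h _

lemma cs_nonneg' {𝓜 : Model d} (ha : 0 ≤ 𝓜.a) (j : Fin d → ℤ) {f : 𝓜.ι → ℝ} (h : ∀ s, 0 ≤ f s) :
    0 ≤ cs 𝓜 j f := by
  unfold cs
  refine mul_nonneg ha (Finset.sum_nonneg fun s _ => ?_)
  split_ifs
  · exact h s
  · exact le_rfl

lemma cs_uu_le {p : ℝ} (hp0 : 0 < p) (hp1 : p < 1) {I n₀ : ℕ} {a₀ : ℝ} {𝓜 : Model d}
    (h : Good p I n₀ a₀ 𝓜) {i : ℕ} (hi : i ≤ I) {j : Fin d → ℤ} (hj : ∀ k, |j k| ≤ (n₀ : ℤ)) :
    cs 𝓜 j (uu p 𝓜 (2 ^ i)) ≤ 2 * p / (1 - p) * cs 𝓜 j (vv p 𝓜 (2 ^ i)) := by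
  have hpar := h.par hp0 hp1
  have h1 := h.blue i hi j hj
  rw [EB_eq 𝓜 hpar, ER_eq 𝓜 hpar] at h1
  have hq : 0 < 1 - p := by linarith
  have ha : 0 < 1 - 𝓜.a := by linarith [h.a_half]
  change (1 - p) / (1 - 𝓜.a) * cs 𝓜 j (uu p 𝓜 (2 ^ i)) ≤
    2 * (p / (1 - 𝓜.a) * cs 𝓜 j (vv p 𝓜 (2 ^ i))) at h1
  rw [div_mul_eq_mul_div, div_mul_eq_mul_div, ← mul_div_assoc, div_le_div_iff_of_pos_right ha]
    at h1
  rw [div_mul_eq_mul_div, le_div_iff₀ hq]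
  linarith

lemma cs_vv_le {p : ℝ} (hp0 : 0 < p) (hp1 : p < 1) {I n₀ : ℕ} {a₀ : ℝ} {𝓜 : Model d}
    (h : Good p I n₀ a₀ 𝓜) {i : ℕ} (hi : i ≤ I) {j j' : Fin d → ℤ} (hj : ∀ k, |j k| ≤ (n₀ : ℤ))
    (hj' : ∀ k, |j' k| ≤ (n₀ : ℤ)) :
    cs 𝓜 j (vv p 𝓜 (2 ^ i)) ≤ 2 * cs 𝓜 j' (vv p 𝓜 (2 ^ i)) := by
  have hpar := h.par hp0 hp1
  have h1 := h.shift i hi j j' hj hj'
  rw [ER_eq 𝓜 hpar, ER_eq 𝓜 hpar] at h1
  have ha : 0 < 1 - 𝓜.a := by linarith [h.a_half]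
  have h2 : 0 < p / (1 - 𝓜.a) := by positivity
  change p / (1 - 𝓜.a) * cs 𝓜 j (vv p 𝓜 (2 ^ i)) ≤
    2 * (p / (1 - 𝓜.a) * cs 𝓜 j' (vv p 𝓜 (2 ^ i))) at h1
  have h3 : p / (1 - 𝓜.a) * cs 𝓜 j (vv p 𝓜 (2 ^ i)) ≤
    p / (1 - 𝓜.a) * (2 * cs 𝓜 j' (vv p 𝓜 (2 ^ i))) := by linarith
  exact le_of_mul_le_mul_left h3 h2

/-- sum over the cubes which meet a ball -/
lemma bs_vv_add_le {p : ℝ} (hp0 : 0 < p) (hp1 : p < 1) {I n₀ : ℕ} {a₀ : ℝ} {𝓜 : Model d}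
    (h : Good p I n₀ a₀ 𝓜) {i : ℕ} (hi : i ≤ I) {c : Sp d} {R : ℝ} (hR : 0 ≤ R)
    (hc : ‖c‖ + R + 1 ≤ n₀) {V : ℝ}
    (hV : ∀ j : Fin d → ℤ, (∀ k, |j k| ≤ (n₀ : ℤ)) → cs 𝓜 j (vv p 𝓜 (2 ^ i)) ≤ V) :
    bs 𝓜 c R (vv p 𝓜 (2 ^ i)) + bs 𝓜 c R (uu p 𝓜 (2 ^ i)) / (1 - p) ≤
      (1 + 2 * p / (1 - p) / (1 - p)) * ((2 * R + 2) ^ d * V) := by
  have hpar := h.par hp0 hp1
  have hq : 0 < 1 - p := by linarith
  have hmem : ∀ j ∈ cubes c R, ∀ k, |j k| ≤ (n₀ : ℤ) := by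
    intro j hj k
    have := abs_le_of_mem_cubes hj hc k
    exact_mod_cast this
  have hV0 : 0 ≤ V := by
    refine le_trans (cs_nonneg' h.a_pos.le (fun _ => 0) (fun s => vv_nonneg hpar (2 ^ i) s))
      (hV (fun _ => 0) fun k => ?_)
    simp
  have e1 : bs 𝓜 c R (vv p 𝓜 (2 ^ i)) ≤ (2 * R + 2) ^ d * V := by
    refine (bs_le_sum_cs 𝓜 h.a_pos.le c R (fun s => vv_nonneg hpar (2 ^ i) s)).trans ?_
    calc ∑ j ∈ cubes c R, cs 𝓜 j (vv p 𝓜 (2 ^ i)) ≤ ∑ _j ∈ cubes c R, V :=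
          Finset.sum_le_sum fun j hj => hV j (hmem j hj)
      _ = (cubes c R).card * V := by rw [Finset.sum_const, nsmul_eq_mul]
      _ ≤ _ := mul_le_mul_of_nonneg_right (card_cubes c hR) hV0
  have e2 : bs 𝓜 c R (uu p 𝓜 (2 ^ i)) ≤ 2 * p / (1 - p) * ((2 * R + 2) ^ d * V) := by
    refine (bs_le_sum_cs 𝓜 h.a_pos.le c R (fun s => uu_nonneg hpar (2 ^ i) s)).trans ?_
    calc ∑ j ∈ cubes c R, cs 𝓜 j (uu p 𝓜 (2 ^ i))
        ≤ ∑ _j ∈ cubes c R, 2 * p / (1 - p) * V :=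
          Finset.sum_le_sum fun j hj => (cs_uu_le hp0 hp1 h hi (hmem j hj)).trans
            (mul_le_mul_of_nonneg_left (hV j (hmem j hj)) (by positivity))
      _ = (cubes c R).card * (2 * p / (1 - p) * V) := by rw [Finset.sum_const, nsmul_eq_mul]
      _ ≤ (2 * R + 2) ^ d * (2 * p / (1 - p) * V) :=
          mul_le_mul_of_nonneg_right (card_cubes c hR) (by positivity)
      _ = _ := by ring
  have e3 : bs 𝓜 c R (uu p 𝓜 (2 ^ i)) / (1 - p) ≤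
      2 * p / (1 - p) * ((2 * R + 2) ^ d * V) / (1 - p) :=
    div_le_div_of_nonneg_right e2 hq.le
  calc _ ≤ (2 * R + 2) ^ d * V + 2 * p / (1 - p) * ((2 * R + 2) ^ d * V) / (1 - p) :=
        add_le_add e1 e3
    _ = _ := by ring

/-- the density bound at time `t = 2 ^ i` when `t ≥ 16 d` -/
lemma dens_large {p : ℝ} (hd : 0 < d) (hp0 : 0 < p) (hp1 : p < 1) {I n₀ : ℕ} {a₀ : ℝ}
    {𝓜 : Model d} (h : Good p I n₀ a₀ 𝓜) {i : ℕ} (hi : i ≤ I) (hn : (2 : ℝ) ^ i + 1 ≤ n₀)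
    (ht : 16 * (d : ℝ) ≤ 2 ^ i) :
    cs 𝓜 (fun _ => 0) (vv p 𝓜 (2 ^ i)) ≤
      16 * (1 + 2 * p / (1 - p) / (1 - p)) * (4 * d) ^ (2 * d) * ((2 : ℝ) ^ i)⁻¹ ^ d := by
  have hpar := h.par hp0 hp1
  have hq : 0 < 1 - p := by linarith
  set t : ℝ := 2 ^ i with ht_def
  have hd1 : (1 : ℝ) ≤ d := by exact_mod_cast hd
  have ht0 : 0 < t := by linarith
  set V : ℝ := cs 𝓜 (fun _ => 0) (vv p 𝓜 t) with hV
  have hV0 : 0 ≤ V := cs_nonneg' h.a_pos.le _ (fun s => vv_nonneg hpar t s)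
  have hz : ∀ k : Fin d, |(fun _ : Fin d => (0 : ℤ)) k| ≤ (n₀ : ℤ) := fun k => by simp
  have hb := bs_vv_add_le (c := (0 : Sp d)) (R := t / 4) hp0 hp1 h hi (by positivity)
    (by rw [norm_zero]; linarith) (V := 2 * V) (fun j hj => cs_vv_le hp0 hp1 h hi hj hz)
  have hs := second_moment (p := p) 𝓜 hpar (0 : Sp d) (R := t / 4) (t := t) (by linarith)
  obtain ⟨J, hJ1, hJ2, hJ3⟩ := exists_inner_cubes hd (0 : Sp d) (R := t / 4) (by linarith)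
  have hm : ((t / 4 / d) ^ d) * (V / 2) ≤
      ex 𝓜.a p (fun ω => 𝓜.a * cnt fun s => dist (𝓜.x s) (0 : Sp d) ≤ t / 4 ∧ FR 𝓜.x ω t s) := by
    rw [ex_bs]
    refine le_trans ?_ (sum_cs_le_bs 𝓜 h.a_pos.le (0 : Sp d) (t / 4)
      (fun s => vv_nonneg hpar t s) J hJ1)
    have hmem : ∀ j ∈ J, ∀ k, |j k| ≤ (n₀ : ℤ) := by
      intro j hj k
      have := abs_le_of_mem_cubes (hJ3 hj) (B := n₀) (by rw [norm_zero]; linarith) k
      exact_mod_cast this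
    calc ((t / 4 / d) ^ d) * (V / 2) ≤ J.card * (V / 2) :=
          mul_le_mul_of_nonneg_right hJ2 (by positivity)
      _ = ∑ _j ∈ J, V / 2 := by rw [Finset.sum_const, nsmul_eq_mul]
      _ ≤ _ := Finset.sum_le_sum fun j hj => by
          have := cs_vv_le hp0 hp1 h hi hz (hmem j hj)
          change V ≤ _ at this
          linarith
  have hcs := cauchy_schwarz hpar
    (fun ω => 𝓜.a * cnt fun s => dist (𝓜.x s) (0 : Sp d) ≤ t / 4 ∧ FR 𝓜.x ω t s) (fun _ => 1)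
  simp only [mul_one, one_pow, ex_const] at hcs
  have hsq : (((t / 4 / d) ^ d) * (V / 2)) ^ 2 ≤
      (1 + 2 * p / (1 - p) / (1 - p)) * ((2 * (t / 4) + 2) ^ d * (2 * V)) := by
    refine le_trans (pow_le_pow_left₀ (by positivity) hm 2) ?_
    exact hcs.trans (hs.trans hb)
  set K : ℝ := 1 + 2 * p / (1 - p) / (1 - p) with hK
  have hK0 : 0 < K := by positivity
  rcases eq_or_lt_of_le hV0 with h0 | hVpos
  · rw [← h0]; positivity
  have h1 : (2 * (t / 4) + 2) ^ d ≤ t ^ d := pow_le_pow_left₀ (by positivity) (by linarith) d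
  have h2 : ((t / 4 / d) ^ d) ^ 2 * V ≤ 8 * K * t ^ d := by
    have h3 : ((t / 4 / d) ^ d) ^ 2 * V * V ≤ 8 * K * t ^ d * V := by
      have h4 : K * ((2 * (t / 4) + 2) ^ d * (2 * V)) ≤ K * (t ^ d * (2 * V)) := by
        gcongr
      nlinarith [hsq, h4]
    exact le_of_mul_le_mul_right h3 hVpos
  have h5 : ∀ T : ℝ, ((T / 4 / d) ^ d) ^ 2 = T ^ d * T ^ d / (4 * d) ^ (2 * d) := by
    intro T
    rw [div_div, div_pow, div_pow, ← pow_mul (4 * (d : ℝ)), mul_comm d 2, sq]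
  rw [h5] at h2
  have h6 : 0 < t ^ d := by positivity
  have h7 : t ^ d * V ≤ 8 * K * (4 * d) ^ (2 * d) := by
    have h8 : t ^ d * (t ^ d * V) ≤ t ^ d * (8 * K * (4 * d) ^ (2 * d)) := by
      have h9 : 0 < (4 * (d : ℝ)) ^ (2 * d) := by positivity
      rw [div_mul_eq_mul_div, div_le_iff₀ h9] at h2
      linarith
    exact le_of_mul_le_mul_left h8 h6
  rw [inv_pow, ← div_eq_mul_inv, le_div_iff₀ h6]
  have h10 : 0 ≤ K * (4 * (d : ℝ)) ^ (2 * d) := by positivity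
  nlinarith [h7, h10]

/-- the constant of the density bound -/
noncomputable def C₁ (d : ℕ) (p : ℝ) : ℝ :=
  16 * (1 + 2 * p / (1 - p) / (1 - p)) * (4 * d) ^ (2 * d) + (16 * d) ^ d

lemma dens_all {p : ℝ} (hd : 0 < d) (hp0 : 0 < p) (hp1 : p < 1) {I n₀ : ℕ} {a₀ : ℝ}
    {𝓜 : Model d} (h : Good p I n₀ a₀ 𝓜) {i : ℕ} (hi : i ≤ I) (hn : (2 : ℝ) ^ i + 1 ≤ n₀)
    (j : Fin d → ℤ) (hj : ∀ k, |j k| ≤ (n₀ : ℤ)) :
    cs 𝓜 j (vv p 𝓜 (2 ^ i)) ≤ 2 * C₁ d p * ((2 : ℝ) ^ i)⁻¹ ^ d := by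
  have hpar := h.par hp0 hp1
  have hq : 0 < 1 - p := by linarith
  have hz : ∀ k : Fin d, |(fun _ : Fin d => (0 : ℤ)) k| ≤ (n₀ : ℤ) := fun k => by simp
  have h1 := cs_vv_le hp0 hp1 h hi hj hz
  have h2 : cs 𝓜 (fun _ => 0) (vv p 𝓜 (2 ^ i)) ≤ C₁ d p * ((2 : ℝ) ^ i)⁻¹ ^ d := by
    rcases le_or_gt (16 * (d : ℝ)) (2 ^ i) with ht | ht
    · refine (dens_large hd hp0 hp1 h hi hn ht).trans ?_
      unfold C₁
      refine mul_le_mul_of_nonneg_right ?_ (by positivity)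
      have : (0 : ℝ) ≤ (16 * d) ^ d := by positivity
      linarith
    · have h3 : cs 𝓜 (fun _ => 0) (vv p 𝓜 (2 ^ i)) ≤ 1 :=
        cs_le_one h _ fun s => pr_le_one hpar _
      refine h3.trans ?_
      have h4 : (1 : ℝ) ≤ (16 * d) ^ d * ((2 : ℝ) ^ i)⁻¹ ^ d := by
        rw [← mul_pow]
        refine one_le_pow₀ ?_
        rw [← div_eq_mul_inv, le_div_iff₀ (by positivity)]
        linarith
      unfold C₁
      rw [add_mul]
      have h5 : 0 ≤ 16 * (1 + 2 * p / (1 - p) / (1 - p)) * (4 * d) ^ (2 * d) *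
        ((2 : ℝ) ^ i)⁻¹ ^ d := by positivity
      linarith
  linarith

/-- the constant of the second moment bound in small balls -/
noncomputable def C₂ (d : ℕ) (p : ℝ) : ℝ :=
  (1 + 2 * p / (1 - p) / (1 - p)) * ((5 / 2) ^ d * (2 * C₁ d p))

lemma C₁_pos {p : ℝ} (hd : 0 < d) (hp0 : 0 < p) (hp1 : p < 1) : 0 < C₁ d p := by
  have hq : 0 < 1 - p := by linarith
  have hd1 : (0 : ℝ) < d := by exact_mod_cast hd
  unfold C₁
  positivity

/-- second moment in a ball of radius `t / 4` -/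
lemma moment_small {p : ℝ} (hd : 0 < d) (hp0 : 0 < p) (hp1 : p < 1) {I n₀ : ℕ} {a₀ : ℝ}
    {𝓜 : Model d} (h : Good p I n₀ a₀ 𝓜) {i : ℕ} (hi : i ≤ I) (hn : (2 : ℝ) ^ i + 1 ≤ n₀)
    {c : Sp d} (hc : ‖c‖ + 2 ^ i + 1 ≤ n₀) :
    ex 𝓜.a p (fun ω => (𝓜.a * cnt fun s => dist (𝓜.x s) c ≤ 2 ^ i / 4 ∧
      FR 𝓜.x ω (2 ^ i) s) ^ 2) ≤ C₂ d p := by
  have hpar := h.par hp0 hp1
  have hq : 0 < 1 - p := by linarith
  set t : ℝ := 2 ^ i with ht_def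
  have ht1 : 1 ≤ t := one_le_pow₀ (by norm_num)
  refine (second_moment 𝓜 hpar c (by linarith)).trans ?_
  refine (bs_vv_add_le (R := t / 4) hp0 hp1 h hi (by positivity) (by linarith)
    (dens_all hd hp0 hp1 h hi hn)).trans ?_
  unfold C₂
  have hC := C₁_pos (p := p) hd hp0 hp1
  refine mul_le_mul_of_nonneg_left ?_ (by positivity)
  have h1 : (2 * (t / 4) + 2) ^ d * t⁻¹ ^ d ≤ (5 / 2) ^ d := by
    rw [← mul_pow]
    refine pow_le_pow_left₀ (by positivity) ?_ d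
    rw [← div_eq_mul_inv, div_le_iff₀ (by positivity)]
    linarith
  calc (2 * (t / 4) + 2) ^ d * (2 * C₁ d p * t⁻¹ ^ d)
      = (2 * (t / 4) + 2) ^ d * t⁻¹ ^ d * (2 * C₁ d p) := by ring
    _ ≤ (5 / 2) ^ d * (2 * C₁ d p) := mul_le_mul_of_nonneg_right h1 (by positivity)

/-- second moment in a ball of radius `t` -/
lemma moment_large {p : ℝ} (hd : 0 < d) (hp0 : 0 < p) (hp1 : p < 1) {I n₀ : ℕ} {a₀ : ℝ}
    {𝓜 : Model d} (h : Good p I n₀ a₀ 𝓜) {i : ℕ} (hi : i ≤ I)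
    {c : Sp d} (hc : ‖c‖ + 2 * 2 ^ i + 1 ≤ n₀) :
    ex 𝓜.a p (fun ω => (𝓜.a * cnt fun s => dist (𝓜.x s) c ≤ 2 ^ i ∧
      FR 𝓜.x ω (2 ^ i) s) ^ 2) ≤ 81 ^ d * C₂ d p := by
  have hpar := h.par hp0 hp1
  have ha := h.a_pos
  have hq : 0 < 1 - p := by linarith
  set t : ℝ := 2 ^ i with ht_def
  have ht1 : 1 ≤ t := one_le_pow₀ (by norm_num)
  have hC₂ : 0 ≤ C₂ d p := by
    have := C₁_pos (p := p) hd hp0 hp1
    unfold C₂
    positivity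
  obtain ⟨N, hN1, hN2, hN3⟩ := exists_net c (R := t) (ρ := t / 4) (by positivity) (by positivity)
  have hN4 : (N.card : ℝ) ≤ 9 ^ d := by
    refine hN3.trans (le_of_eq ?_)
    congr 1
    field_simp
    norm_num
  set F : Sp d → Cfg 𝓜.ι → ℝ := fun u ω => 𝓜.a * cnt fun s => dist (𝓜.x s) u ≤ t / 4 ∧
      FR 𝓜.x ω t s with hF
  have hF0 : ∀ u ω, 0 ≤ F u ω := fun u ω => mul_nonneg ha.le (cnt_nonneg _)
  have step : ∀ ω, (𝓜.a * cnt fun s => dist (𝓜.x s) c ≤ t ∧ FR 𝓜.x ω t s) ^ 2 ≤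
      N.card * ∑ u ∈ N, F u ω ^ 2 := by
    intro ω
    have h1 : (cnt fun s => dist (𝓜.x s) c ≤ t ∧ FR 𝓜.x ω t s) ≤
        ∑ u ∈ N, cnt fun s => dist (𝓜.x s) u ≤ t / 4 ∧ FR 𝓜.x ω t s := by
      refine le_trans (cnt_mono ?_) (cnt_exists_le N _)
      intro s hs
      obtain ⟨u, hu, hu2⟩ := hN2 _ hs.1
      exact ⟨u, hu, hu2, hs.2⟩
    have h2 : 𝓜.a * (cnt fun s => dist (𝓜.x s) c ≤ t ∧ FR 𝓜.x ω t s) ≤ ∑ u ∈ N, F u ω := by
      rw [hF, ← Finset.mul_sum]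
      exact mul_le_mul_of_nonneg_left h1 ha.le
    calc _ ≤ (∑ u ∈ N, F u ω) ^ 2 :=
          pow_le_pow_left₀ (mul_nonneg ha.le (cnt_nonneg _)) h2 2
      _ ≤ N.card * ∑ u ∈ N, F u ω ^ 2 := sq_sum_le_card_mul_sum_sq
  refine (ex_mono hpar step).trans ?_
  rw [ex_mul_left, ex_sum]
  have h3 : ∑ u ∈ N, ex 𝓜.a p (fun ω => F u ω ^ 2) ≤ 9 ^ d * C₂ d p := by
    calc ∑ u ∈ N, ex 𝓜.a p (fun ω => F u ω ^ 2) ≤ ∑ _u ∈ N, C₂ d p := by
          refine Finset.sum_le_sum fun u hu => ?_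
          have h4 : ‖u‖ ≤ ‖c‖ + t := by
            have h5 := hN1 u hu
            rw [dist_eq_norm] at h5
            calc ‖u‖ = ‖c + (u - c)‖ := by congr 1; abel
              _ ≤ ‖c‖ + ‖u - c‖ := norm_add_le _ _
              _ ≤ ‖c‖ + t := by linarith
          exact moment_small hd hp0 hp1 h hi (by have := norm_nonneg c; linarith) (by linarith)
      _ = N.card * C₂ d p := by rw [Finset.sum_const, nsmul_eq_mul]
      _ ≤ _ := mul_le_mul_of_nonneg_right hN4 hC₂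
  calc (N.card : ℝ) * ∑ u ∈ N, ex 𝓜.a p (fun ω => F u ω ^ 2)
      ≤ 9 ^ d * (9 ^ d * C₂ d p) :=
        mul_le_mul hN4 h3 (Finset.sum_nonneg fun u _ => ex_nonneg hpar fun ω => by positivity)
          (by positivity)
    _ = 81 ^ d * C₂ d p := by rw [← mul_assoc, ← mul_pow]; norm_num

end dens

/-- Module UB. -/
theorem stmtUB {d : ℕ} {p : ℝ} (hd : 0 < d) (hp0 : 0 < p) (hp1 : p < 1) : StmtUB d p := by
  have hq : 0 < 1 - p := by linarith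
  have hC1 := C₁_pos (p := p) hd hp0 hp1
  have hC2 : 0 < C₂ d p := by unfold C₂; positivity
  set K : ℝ := 2 * p / (1 - p) with hK
  have hK0 : 0 < K := by positivity
  refine ⟨K + K * (2 * C₁ d p) + 81 ^ d * C₂ d p, by positivity, fun I => ?_⟩
  refine (Ev.good (d := d) p I (I + 2 * 2 ^ I + 1) (one_pos)).mono fun 𝓜 h => ?_
  have hpar := h.par hp0 hp1
  intro i hi
  have hpow : (2 : ℝ) ^ i ≤ 2 ^ I := pow_le_pow_right₀ (by norm_num) hi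
  have hn : ((I + 2 * 2 ^ I + 1 : ℕ) : ℝ) = I + 2 * 2 ^ I + 1 := by push_cast; ring
  have hI0 : (0 : ℝ) ≤ I := Nat.cast_nonneg _
  have hp2 : (0 : ℝ) < 2 ^ i := by positivity
  have hinv : ((2 : ℝ) ^ i)⁻¹ ^ d = (1 / 2) ^ (d * i) := by
    rw [one_div, inv_pow, inv_pow, ← pow_mul, mul_comm]
  refine ⟨fun j hj => ?_, fun c hc => ?_⟩
  · have hj' : ∀ k, |j k| ≤ ((I + 2 * 2 ^ I + 1 : ℕ) : ℤ) := fun k => (hj k).trans (by
      push_cast
      have : (0 : ℤ) ≤ 2 ^ I := by positivity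
      linarith)
    have h1 := cs_uu_le hp0 hp1 h hi hj'
    have h2 := dens_all hd hp0 hp1 h hi (by rw [hn]; linarith) j hj'
    have hV0 : 0 ≤ cs 𝓜 j (vv p 𝓜 (2 ^ i)) := cs_nonneg' h.a_pos.le _ (fun s => vv_nonneg hpar _ s)
    rw [hinv] at h2
    refine ⟨?_, ?_, fun j' hj2 => ?_⟩
    · refine h1.trans (mul_le_mul_of_nonneg_right ?_ hV0)
      have : 0 ≤ K * (2 * C₁ d p) + 81 ^ d * C₂ d p := by positivity
      linarith
    · calc cs 𝓜 j (uu p 𝓜 (2 ^ i)) ≤ K * cs 𝓜 j (vv p 𝓜 (2 ^ i)) := h1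
        _ ≤ K * (2 * C₁ d p * (1 / 2) ^ (d * i)) := mul_le_mul_of_nonneg_left h2 hK0.le
        _ = K * (2 * C₁ d p) * (1 / 2) ^ (d * i) := by ring
        _ ≤ _ := by
          refine mul_le_mul_of_nonneg_right ?_ (by positivity)
          have : 0 ≤ 81 ^ d * C₂ d p := by positivity
          linarith
    · refine cs_vv_le hp0 hp1 h hi hj' fun k => (hj2 k).trans (by
        push_cast
        have : (0 : ℤ) ≤ 2 ^ I := by positivity
        linarith)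
  · refine (moment_large hd hp0 hp1 h hi (c := c) (by rw [hn]; linarith)).trans ?_
    have : 0 ≤ K + K * (2 * C₁ d p) := by positivity
    linarith

end Pool.Agent.Lib_helper87.ASM
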