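import Pool.Agent.Lib_helper1.ASM.Clear
import Pool.Agent.Lib_helper12.ASM.T2
import Pool.Agent.Lib_helper12.ASM.T4b
import Pool.Agent.Lib_helper3.ASM.T6
import Pool.Agent.Lib_helper30.ASM.DEC
import Pool.Agent.Lib_helper30.ASM.LD
import Pool.Agent.Lib_helper30.ASM.SURG
import Pool.Agent.Lib_helper33.ASM.LOC
import Pool.Agent.Lib_helper35.ASM.T2a
import Pool.Agent.Lib_helper44.ASM.WT
import Pool.Agent.Lib_helper73.ASM.T4a
import Pool.Agent.Lib_helper77.ASM.T3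
import Pool.Agent.Lib_helper77.ASM.T5
import Pool.Agent.Lib_helper8.ASM.FIN
import Pool.Agent.Lib_helper9.ASM.T1
import Pool.Agent.Lib_helper93.ASM.LB
import Pool.Agent.Lib_helper97.ASM.GOOD
import Pool.Agent.Lib_helper87.ASM.UB
import Pool.Agent.Lib_helper87.ASM.Final
import Pool.Agent.Lib_helper87.ASM.Exist4

/-!
# Main theorem
-/

set_option autoImplicit false

open scoped BigOperators ENNReal
open MeasureTheory Filter Topology

namespace Pool.Agent.Lib_helper87.ASM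

open Pool.Agent.Lib_helper33.ASM

/-- conclusion of the finite part -/
theorem fin_part {d : ℕ} {p : ℝ} (hd : 0 < d) (hp0 : 0 < p) (hp1 : p < 1) : StmtFIN d p := by
  have hUB : StmtUB d p := stmtUB hd hp0 hp1
  have hWT : StmtWT d p := Pool.Agent.Lib_helper44.ASM.stmtWT hp0 hp1 hUB
  have hLOC : StmtLOC d p := stmtLOC hd hp0 hp1 (stmtDEC stmtSURG) hWT
  have hLB : StmtLB d p := Pool.Agent.Lib_helper93.ASM.stmtLB hp0 hp1 hLOC
  have hGOOD : StmtGOOD d p := stmtGOOD hd hp0 hp1 hUB hLB hWT hLOC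
  have hLD : StmtLD d p := stmtLD hp0 hp1 hGOOD hLOC
  exact Pool.Agent.Lib_helper8.ASM.stmtFIN hd hp0 hp1 hLD hLB hUB (stmtCLEAR hp0 hp1)

/-- the main theorem, for one process -/
theorem main_of {d : ℕ} {p : ℝ} (hd : 0 < d) (hp0 : 0 < p) (hp1 : p < 1)
    {Ω : Type} [MeasurableSpace Ω] {P : Measure Ω} [IsProbabilityMeasure P]
    {X : ℕ → Ω → Sp d} {c : ℕ → Ω → Bool} (hX : IsColouredPoisson P p X c) :
    (∀ᵐ ω ∂P, ∃! m, IsStableMatching (fun n => X n ω) (fun n => c n ω) m) ∧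
    ∃ V : Set Ω, MeasurableSet V ∧ 0 < P V ∧ ∀ ω ∈ V, ∃ m,
      IsStableMatching (fun n => X n ω) (fun n => c n ω) m ∧
      (∀ m', IsStableMatching (fun n => X n ω) (fun n => c n ω) m' → m' = m) ∧
      ∃ i, m i = i := by
  have h1 : StmtT1 := Pool.Agent.Lib_helper9.ASM.stmtT1
  have h2 : StmtT2 := stmtT2 Pool.Agent.Lib_helper35.ASM.stmtT2a
  have h3 : StmtT3 := stmtT3
  have h4a : StmtT4a := stmtT4a
  have h4b : StmtT4b := stmtT4b
  have h5 : StmtT5 := stmtT5 h1 h2 h3 h4a h4b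
  have h6 : StmtT6 := stmtT6 h4b h5
  refine ⟨?_, exists_event h1 h2 h3 h4a h4b hd hp0 hp1 hX
    (not_all_matched h6 (fin_part hd hp0 hp1) hd hp0 hp1 hX)⟩
  filter_upwards [h2 d p hp0 hp1 Ω P X c hd hX] with ω hω
  exact ((h3 d _ hω).2.2 (fun n => c n ω)).1

end Pool.Agent.Lib_helper87.ASM
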